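import Pool.Agent.Q270.UfsSer

/-!
# Algebraic power series over a finite field with a small uniform exponent

For every finite field `F`, every `n ≥ 2` and every `ε > 0` there is an algebraic element `ξ`
of `F((1/T))`, of degree greater than `n`, with uniform exponent `ŵ_n^*(ξ) ≤ 1 + ε`.
-/

set_option autoImplicit false
set_option linter.unusedSectionVars false

namespace Pool.Agent.Results.MP_7488b5_nt.UniformStarExponentSmall

open Polynomial Filter Pool.Agent.Q270.Ufs

/-- the embedding of `F[T]` in the field of Laurent series in `1/T` (the variable of the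
Laurent series is `1/T`, so `T` goes to the monomial of exponent `-1`) -/
noncomputable def toSeries (F : Type) [Field F] : F[X] →+* LaurentSeries F :=
  Polynomial.eval₂RingHom (HahnSeries.C : F →+* HahnSeries ℤ F) (HahnSeries.single (-1 : ℤ) (1 : F))

variable {F : Type} [Field F] [Fintype F]

/-- the absolute value: `0` at `0`, and `q ^ (-N)` if the expansion in powers of `1/T` starts
with the exponent `N` -/
noncomputable def absVal (x : LaurentSeries F) : ℝ := by
  classical
  exact if x = 0 then 0 else (Fintype.card F : ℝ) ^ (-x.order)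

/-- the height of a polynomial with coefficients in `F[T]`: the maximum of the absolute values
of its coefficients -/
noncomputable def height (P : F[X][X]) : ℝ :=
  (Finset.range (P.natDegree + 1)).sup' ⟨0, by simp⟩ fun k => absVal (toSeries F (P.coeff k))

/-- `P` is the minimal defining polynomial of `α` over `F[T]` (unique up to a nonzero constant) -/
def IsMinPoly (α : LaurentSeries F) (P : F[X][X]) : Prop :=
  Irreducible P ∧ P.eval₂ (toSeries F) α = 0

/-- the property in the definition of the uniform exponent `ŵ_n^*(ξ)` -/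
def StarProperty (ξ : LaurentSeries F) (n : ℕ) (w : ℝ) : Prop :=
  ∃ H₀ : ℝ, ∀ H : ℝ, H₀ < H → ∃ (α : LaurentSeries F) (P : F[X][X]),
    IsMinPoly α P ∧ P.natDegree ≤ n ∧ height P ≤ H ∧
      0 < absVal (ξ - α) ∧ absVal (ξ - α) < (height P)⁻¹ * H ^ (-w)

/-- the uniform exponent `ŵ_n^*(ξ)` -/
noncomputable def uniformStar (ξ : LaurentSeries F) (n : ℕ) : EReal :=
  ⨆ w ∈ {w : ℝ | StarProperty ξ n w}, (w : EReal)

lemma toSeries_eq : toSeries F = emb F := rfl

lemma absVal_eq (x : LaurentSeries F) : absVal x = absv x := by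
  unfold absVal absv; congr

lemma le_height (P : F[X][X]) (k : ℕ) : absv (emb F (P.coeff k)) ≤ height P := by
  have h1 : ∀ j ∈ Finset.range (P.natDegree + 1), absVal (toSeries F (P.coeff j)) ≤ height P :=
    fun j hj => Finset.le_sup' (fun k => absVal (toSeries F (P.coeff k))) hj
  by_cases hk : k ≤ P.natDegree
  · have := h1 k (Finset.mem_range.2 (by omega))
    rwa [absVal_eq] at this
  · rw [coeff_eq_zero_of_natDegree_lt (by omega), map_zero, absv_zero]
    have := h1 0 (Finset.mem_range.2 (by omega))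
    refine le_trans ?_ this
    rw [absVal_eq]
    exact (good (F := F)).nonneg _

section

variable (F)

lemma absv_den (Q J : ℕ) : absv (emb F (X ^ (Q ^ J))) = (Fintype.card F : ℝ) ^ (Q ^ J) := by
  rw [absv_emb (pow_ne_zero _ X_ne_zero), natDegree_X_pow]

lemma tendsto_den (Q : ℕ) (hQ : 2 ≤ Q) :
    Tendsto (fun J => absv (emb F (X ^ (Q ^ J)))) atTop atTop := by
  simp only [absv_den]
  exact (tendsto_pow_atTop_atTop_of_one_lt one_lt_card).comp
    (tendsto_pow_atTop_atTop_of_one_lt (by omega))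

lemma absv_xi_sub (Q : ℕ) (hQ : 2 ≤ Q) (J : ℕ) :
    absv (xi F Q - psum F Q J) = (Fintype.card F : ℝ) ^ (-((Q ^ (J + 1) : ℕ) : ℤ)) := by
  obtain ⟨h1, h2⟩ := order_xi_sub (F := F) hQ J
  rw [absv_of_ne h1, h2]

lemma xi_sub_mul (Q : ℕ) (hQ : 2 ≤ Q) (J : ℕ) :
    absv (xi F Q - emb F (num F Q J) / emb F (X ^ (Q ^ J))) * absv (emb F (X ^ (Q ^ J))) ^ Q = 1 := by
  have hq : (Fintype.card F : ℝ) ≠ 0 := by linarith [one_lt_card (F := F)]
  rw [← psum_eq hQ, absv_xi_sub F Q hQ, absv_den, ← pow_mul, ← pow_succ, ← zpow_natCast,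
    ← zpow_add₀ hq, neg_add_cancel, zpow_zero]

lemma absv_xi (Q : ℕ) (hQ : 2 ≤ Q) : absv (xi F Q) < 1 := by
  have hq := one_lt_card (F := F)
  have h1 := absv_xi_sub F Q hQ 0
  have h2 : absv (psum F Q 0) < 1 := by
    have h3 : psum F Q 0 = HahnSeries.single (1 : ℤ) (1 : F) := by
      unfold psum; simp
    rw [h3, absv_of_ne (by simp), HahnSeries.order_single one_ne_zero, zpow_neg, zpow_one]
    exact inv_lt_one_of_one_lt₀ hq
  have h4 : xi F Q = (xi F Q - psum F Q 0) + psum F Q 0 := by ring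
  rw [h4]
  refine lt_of_le_of_lt ((good (F := F)).add _ _) (max_lt ?_ h2)
  rw [h1]
  apply zpow_lt_one_of_neg₀ hq
  have : 0 < Q ^ (0 + 1) := pow_pos (by omega) _
  omega

/-- the algebraic equation of the series -/
lemma xi_eq (r : ℕ) (hr : 1 ≤ r) :
    (xi F (Fintype.card F ^ r)) ^ (Fintype.card F ^ r) - xi F (Fintype.card F ^ r) +
      HahnSeries.single (1 : ℤ) (1 : F) = 0 := by
  obtain ⟨p, hchF, m, hp, hm⟩ := FiniteField.card' F
  have : Fact p.Prime := ⟨hp⟩
  have hch : CharP (LaurentSeries F) p :=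
    charP_of_injective_ringHom (f := (HahnSeries.C : F →+* HahnSeries ℤ F))
      HahnSeries.C_injective p
  set Q := Fintype.card F ^ r with hQd
  have hQ : 2 ≤ Q := by
    have := Fintype.one_lt_card (α := F)
    calc 2 ≤ Fintype.card F := this
      _ ≤ Fintype.card F ^ r := Nat.le_self_pow (by omega) _
  have hQp : Q = p ^ ((m : ℕ) * r) := by rw [hQd, hm, pow_mul]
  have key : ∀ J : ℕ, (psum F Q J) ^ Q - psum F Q J + HahnSeries.single (1 : ℤ) (1 : F)
      = HahnSeries.single ((Q ^ (J + 1) : ℕ) : ℤ) (1 : F) := by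
    intro J
    have h1 : (psum F Q J) ^ Q
        = ∑ j ∈ Finset.range (J + 1), HahnSeries.single ((Q ^ (j + 1) : ℕ) : ℤ) (1 : F) := by
      unfold psum
      conv_lhs => rw [hQp]
      rw [sum_pow_char_pow]
      apply Finset.sum_congr rfl
      intro j _
      rw [← hQp, HahnSeries.single_pow, one_pow]
      congr 1
      rw [pow_succ]
      push_cast
      simp [mul_comm]
    rw [h1, Finset.sum_range_succ]
    unfold psum
    rw [Finset.sum_range_succ']
    simp
  by_contra hne
  have hpos := (good (F := F)).pos _ hne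
  have hq := one_lt_card (F := F)
  have hb : ∀ J : ℕ, absv (xi F Q ^ Q - xi F Q + HahnSeries.single (1 : ℤ) (1 : F))
      ≤ (Fintype.card F : ℝ) ^ (-((Q ^ (J + 1) : ℕ) : ℤ)) := by
    intro J
    have e1 : xi F Q ^ Q - xi F Q + HahnSeries.single (1 : ℤ) (1 : F)
        = ((xi F Q - psum F Q J) ^ Q - (xi F Q - psum F Q J))
          + HahnSeries.single ((Q ^ (J + 1) : ℕ) : ℤ) (1 : F) := by
      rw [← key J]
      have : (xi F Q - psum F Q J) ^ Q = xi F Q ^ Q - psum F Q J ^ Q := by
        conv_lhs => rw [hQp]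
        rw [sub_pow_char_pow, ← hQp]
      rw [this]
      ring
    rw [e1]
    have h2 := absv_xi_sub F Q hQ J
    have h3 : absv (xi F Q - psum F Q J) ≤ 1 := by
      rw [h2]
      apply zpow_le_one_of_nonpos₀ hq.le
      omega
    refine ((good (F := F)).add _ _).trans (max_le ?_ ?_)
    · refine ((good (F := F)).sub _ _).trans (max_le ?_ h2.le)
      rw [(good (F := F)).pow]
      refine le_trans ?_ h2.le
      exact pow_le_of_le_one ((good (F := F)).nonneg _) h3 (by omega)
    · rw [absv_of_ne (by simp), HahnSeries.order_single one_ne_zero]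
  obtain ⟨J, hJ⟩ := ((tendsto_den F Q hQ).eventually_gt_atTop
    (absv (xi F Q ^ Q - xi F Q + HahnSeries.single (1 : ℤ) (1 : F)))⁻¹).exists
  rw [absv_den] at hJ
  have h4 := hb J
  have h5 : (Fintype.card F : ℝ) ^ (Q ^ J) ≤ (Fintype.card F : ℝ) ^ (Q ^ (J + 1)) :=
    pow_le_pow_right₀ hq.le (Nat.pow_le_pow_right (by omega) (by omega))
  rw [zpow_neg, zpow_natCast] at h4
  have h6 := inv_anti₀ hpos h4
  rw [inv_inv] at h6
  linarith

lemma exists_minPoly (r : ℕ) (hr : 1 ≤ r) :
    ∃ P : F[X][X], IsMinPoly (xi F (Fintype.card F ^ r)) P := by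
  set Q := Fintype.card F ^ r with hQd
  have hQ : 2 ≤ Q := by
    have := Fintype.one_lt_card (α := F)
    calc 2 ≤ Fintype.card F := this
      _ ≤ Fintype.card F ^ r := Nat.le_self_pow (by omega) _
  let G : F[X][X] := C X * X ^ Q - C X * X + 1
  have hX : emb F X = HahnSeries.single (-1 : ℤ) (1 : F) := by
    rw [← monomial_one_one_eq_X, emb_monomial]; simp
  have hG : G.eval₂ (emb F) (xi F Q) = 0 := by
    have h1 := xi_eq F r hr
    rw [← hQd] at h1
    have h2 : HahnSeries.single (-1 : ℤ) (1 : F) * HahnSeries.single (1 : ℤ) (1 : F) = 1 := by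
      rw [HahnSeries.single_mul_single]; simp
    simp only [G, eval₂_add, eval₂_sub, eval₂_mul, eval₂_C, eval₂_X_pow, eval₂_X, eval₂_one, hX]
    calc _ = HahnSeries.single (-1 : ℤ) (1 : F) * (xi F Q ^ Q - xi F Q +
          HahnSeries.single (1 : ℤ) (1 : F)) := by
            rw [mul_add, h2]; ring
      _ = 0 := by rw [h1, mul_zero]
  have hG0 : G ≠ 0 := by
    intro h
    have h1 : G.coeff 0 = 0 := by rw [h, coeff_zero]
    have h2 : G.coeff 0 = 1 := by
      simp [G, coeff_X_pow, show (0 : ℕ) ≠ Q by omega]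
    rw [h1] at h2
    exact zero_ne_one h2
  obtain ⟨f, hf, hfG⟩ := WfDvdMonoid.exists_factors G hG0
  obtain ⟨u, hu⟩ := hfG
  have h3 : (f.map (fun P => P.eval₂ (emb F) (xi F Q))).prod = 0 := by
    have h4 : (f.prod).eval₂ (emb F) (xi F Q) = 0 := by
      have h5 : (f.prod).eval₂ (emb F) (xi F Q) * (u : F[X][X]).eval₂ (emb F) (xi F Q) = 0 := by
        rw [← eval₂_mul, hu, hG]
      rcases mul_eq_zero.1 h5 with h6 | h6
      · exact h6
      · exfalso
        have h7 : ((u : F[X][X]).eval₂ (emb F) (xi F Q)) *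
            ((u⁻¹ : F[X][X]ˣ) : F[X][X]).eval₂ (emb F) (xi F Q) = 1 := by
          rw [← eval₂_mul, Units.mul_inv, eval₂_one]
        rw [h6, zero_mul] at h7
        exact zero_ne_one h7
    rw [← h4]
    exact (Multiset.prod_hom f (eval₂RingHom (emb F) (xi F Q)))
  rw [Multiset.prod_eq_zero_iff, Multiset.mem_map] at h3
  obtain ⟨P, hP, hP0⟩ := h3
  exact ⟨P, hf P hP, hP0⟩

end

/-- **Main theorem.** Over every finite field, for every `n ≥ 2` and every `ε > 0`, there is an
algebraic Laurent series in `1/T` of degree greater than `n` whose uniform exponent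
`ŵ_n^*` is at most `1 + ε`. -/
theorem result (F : Type) [Field F] [Fintype F] (n : ℕ) (hn : 2 ≤ n) (ε : ℝ) (hε : 0 < ε) :
    ∃ ξ : LaurentSeries F, (∃ P : F[X][X], IsMinPoly ξ P ∧ n < P.natDegree) ∧
      uniformStar ξ n ≤ ((1 + ε : ℝ) : EReal) := by
  have hlim : Tendsto (fun r : ℕ => ((Fintype.card F : ℝ) ^ r)) atTop atTop :=
    tendsto_pow_atTop_atTop_of_one_lt one_lt_card
  obtain ⟨r, h1, h2, h3⟩ := ((hlim.eventually_gt_atTop (n : ℝ)).and
    ((hlim.eventually_gt_atTop (((n : ℝ) * (1 + ε) - 1) / ε)).and (eventually_ge_atTop 1))).exists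
  set Q := Fintype.card F ^ r with hQd
  have hnQ : n < Q := by
    rw [hQd]; exact_mod_cast h1
  have hQr : (Fintype.card F : ℝ) ^ r = (Q : ℝ) := by rw [hQd]; push_cast; rfl
  rw [hQr] at h1 h2
  have hQ : 2 ≤ Q := by omega
  have hlt : ((Q : ℝ) - 1) / ((Q : ℝ) - n) < 1 + ε := by
    rw [div_lt_iff₀ (by linarith)]
    rw [div_lt_iff₀ hε] at h2
    nlinarith
  have hcore := fun (w : ℝ) (hw : ((Q : ℝ) - 1) / ((Q : ℝ) - n) < w) (H0 : ℝ) =>
    core (good (F := F)) (fun j => X ^ (Q ^ j)) (num F Q) (xi F Q) Q n (by omega) hnQ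
      (fun j => pow_ne_zero _ X_ne_zero) (isCoprime_num hQ) (tendsto_den F Q hQ)
      (xi_sub_mul F Q hQ) (absv_xi F Q hQ) w hw H0
  obtain ⟨P, hP⟩ := exists_minPoly F r h3
  refine ⟨xi F Q, ⟨P, hP, ?_⟩, ?_⟩
  · by_contra hcon
    push Not at hcon
    obtain ⟨H, hH, hH2⟩ := hcore (1 + ε) hlt (max 1 (height P))
    have h4 := hH2 (xi F Q) P (height P) hP.1 hP.2 hcon (le_height P)
      ((le_max_right _ _).trans hH.le)
    rw [sub_self, absv_zero] at h4
    have h5 : 0 < H := lt_of_lt_of_le zero_lt_one ((le_max_left _ _).trans hH.le)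
    have h6 : 1 ≤ height P :=
      ((good (F := F)).int _ (leadingCoeff_ne_zero.2 hP.1.ne_zero)).trans (le_height P _)
    have h7 : 0 < (height P)⁻¹ * H ^ (-(1 + ε)) :=
      mul_pos (inv_pos.2 (by linarith)) (Real.rpow_pos_of_pos h5 _)
    linarith
  · unfold uniformStar
    apply iSup₂_le
    intro w hw
    rw [EReal.coe_le_coe_iff]
    by_contra hcon
    push Not at hcon
    obtain ⟨H0, hH0⟩ := hw
    obtain ⟨H, hH, hH2⟩ := hcore w (hlt.trans hcon) H0
    obtain ⟨α, P', hP', hd, hht, _, hlt'⟩ := hH0 H hH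
    have := hH2 α P' (height P') hP'.1 hP'.2 hd (le_height P') hht
    rw [absVal_eq] at hlt'
    linarith

end Pool.Agent.Results.MP_7488b5_nt.UniformStarExponentSmall
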